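import Pool.Agent.W458.MF.GStm
import Pool.Agent.W397.MF.PAIR
import Pool.Agent.W536.RBase

/-!
# The external square of a further eigenvector is algebraic
-/

open CategoryTheory AlgebraicGeometry
open Polynomial (aeval)

universe u v w

namespace Pool.Agent.W588.MF

section LA

open Polynomial

variable {K : Type*} {V : Type*} [Field K] [AddCommGroup V] [Module K V] [FiniteDimensional K V]

/-- The projector on a generalised eigenspace is a polynomial. -/
theorem exists_proj (F : Module.End K V) (lam : K) :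
    ∃ (P U : K[X]) (N : ℕ), (∀ x, aeval F P x ∈ Module.End.maxGenEigenspace F lam) ∧
      (∀ v ∈ Module.End.maxGenEigenspace F lam, aeval F P v = v) ∧
      (∀ v ∈ Module.End.maxGenEigenspace F lam, ((F - algebraMap K (Module.End K V) lam) ^ N) v = 0) ∧
      ∀ v, v - aeval F P v = ((F - algebraMap K (Module.End K V) lam) ^ N) (aeval F U v) := by
  have hm : minpoly K F ≠ 0 := minpoly.ne_zero (Algebra.IsIntegral.isIntegral F)
  obtain ⟨s, hs, hnd⟩ := Polynomial.exists_eq_pow_rootMultiplicity_mul_and_not_dvd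
    (minpoly K F) hm lam
  set r := (minpoly K F).rootMultiplicity lam with hr
  obtain ⟨M, hM⟩ : ∃ M : ℕ, Module.End.maxGenEigenspace F lam = Module.End.genEigenspace F lam M :=
    ⟨_, Module.End.maxGenEigenspace_eq F lam⟩
  set N := max r M with hN
  have hcop : IsCoprime ((X - C lam) ^ N) s :=
    ((Polynomial.irreducible_X_sub_C lam).coprime_iff_not_dvd.mpr hnd).pow_left
  obtain ⟨u, w, huw⟩ := hcop
  have hX : aeval F (X - C lam : K[X]) = F - algebraMap K (Module.End K V) lam := by
    simp
  have hker : ∀ v ∈ Module.End.maxGenEigenspace F lam,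
      ((F - algebraMap K (Module.End K V) lam) ^ N) v = 0 := by
    intro v hv
    rw [hM, Module.End.mem_genEigenspace_nat, LinearMap.mem_ker] at hv
    have h1 : (F - algebraMap K (Module.End K V) lam) ^ N =
        (F - algebraMap K (Module.End K V) lam) ^ (N - M) *
        (F - lam • (1 : Module.End K V)) ^ M := by
      rw [Algebra.algebraMap_eq_smul_one, ← pow_add]
      congr 1
      omega
    rw [h1, Module.End.mul_apply, hv, map_zero]
  have hid : ∀ v, v - aeval F (w * s) v = ((F - algebraMap K (Module.End K V) lam) ^ N)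
      (aeval F u v) := by
    intro v
    have h1 : (1 : K[X]) - w * s = (X - C lam) ^ N * u := by
      rw [← huw]; ring
    have h2 := congrArg (fun p => aeval F p v) h1
    simp only [map_sub, map_one, map_mul, map_pow, hX, LinearMap.sub_apply, Module.End.mul_apply,
      Module.End.one_apply] at h2
    rw [map_mul, Module.End.mul_apply]
    exact h2
  refine ⟨w * s, u, N, ?_, ?_, hker, hid⟩
  · intro x
    rw [Module.End.mem_maxGenEigenspace]
    refine ⟨N, ?_⟩
    have h1 : (X - C lam) ^ N * (w * s) = (X - C lam) ^ (N - r) * w * minpoly K F := by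
      have h3 : (X - C lam : K[X]) ^ N = (X - C lam) ^ (N - r) * (X - C lam) ^ r := by
        rw [← pow_add]; congr 1; omega
      conv_rhs => rw [hs]
      rw [h3]
      ring
    have h2 : aeval F ((X - C lam) ^ N * (w * s)) = 0 := by
      rw [h1, map_mul, minpoly.aeval, mul_zero]
    rw [map_mul, map_pow, hX] at h2
    have h3 := LinearMap.congr_fun h2 x
    rw [Module.End.mul_apply, LinearMap.zero_apply] at h3
    rw [← h3]
    rfl
  · intro v hv
    have h1 := hid v
    have h2 : ((F - algebraMap K (Module.End K V) lam) ^ N) (aeval F u v) = 0 := by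
      have hc : (F - algebraMap K (Module.End K V) lam) ^ N * aeval F u =
          aeval F u * (F - algebraMap K (Module.End K V) lam) ^ N := by
        rw [← hX, ← map_pow, ← map_mul, ← map_mul, mul_comm]
      have h3 := LinearMap.congr_fun hc v
      rw [Module.End.mul_apply, Module.End.mul_apply, hker v hv, map_zero] at h3
      exact h3
    rw [h2] at h1
    exact (sub_eq_zero.1 h1).symm

omit [FiniteDimensional K V] in
/-- A generalised eigenspace is orthogonal to the range of the power. -/
theorem orth (F : Module.End K V) (lam Q : K) (hlam : lam ^ 2 = Q) (hQ : Q ≠ 0)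
    (β : V →ₗ[K] V →ₗ[K] K) (hβ : ∀ x y, β (F x) (F y) = Q * β x y) (n : ℕ) :
    ∀ x, ((F - algebraMap K (Module.End K V) lam) ^ n) x = 0 →
      ∀ y, β x (((F - algebraMap K (Module.End K V) lam) ^ n) y) = 0 := by
  have hlam0 : lam ≠ 0 := by
    rintro rfl
    apply hQ
    rw [← hlam]; ring
  induction n with
  | zero =>
    intro x hx y
    have : x = 0 := by simpa using hx
    rw [this, map_zero, LinearMap.zero_apply]
  | succ n ih =>
    intro x hx y
    set G := F - algebraMap K (Module.End K V) lam with hG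
    have hGa : ∀ z, G z = F z - lam • z := by
      intro z
      rw [hG, LinearMap.sub_apply, Module.algebraMap_end_apply]
    have hx' : (G ^ n) (G x) = 0 := by
      rw [← Module.End.mul_apply, ← pow_succ]; exact hx
    have hcom : ∀ z, F ((G ^ n) z) = (G ^ n) (F z) := by
      intro z
      have hc : Commute F G := by
        rw [hG]
        exact (Commute.refl F).sub_right (Algebra.commutes lam F).symm
      have := LinearMap.congr_fun (hc.pow_right n).eq z
      simpa [Module.End.mul_apply] using this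
    set y' := (G ^ n) y with hy'
    have e1 : (G ^ (n + 1)) y = F y' - lam • y' := by
      rw [pow_succ', Module.End.mul_apply, hGa]
    have e2 : lam * β x (F y') = Q * β x y' - β (G x) (F y') := by
      have h3 : lam • x = F x - G x := by rw [hGa]; abel
      have h4 : lam * β x (F y') = β (lam • x) (F y') := by
        rw [map_smul, LinearMap.smul_apply, smul_eq_mul]
      rw [h4, h3, map_sub, LinearMap.sub_apply, hβ]
    have e3 : β (G x) (F y') = 0 := by
      rw [hy', hcom]
      exact ih (G x) hx' (F y)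
    have e4 : lam * β x ((G ^ (n + 1)) y) = 0 := by
      rw [e1, map_sub, map_smul, smul_eq_mul, mul_sub, e2, e3, ← hlam]
      ring
    exact (mul_eq_zero.1 e4).resolve_left hlam0

theorem la (F : Module.End K V) (lam Q : K) (hlam : lam ^ 2 = Q) (hQ : Q ≠ 0)
    (β : V →ₗ[K] V →ₗ[K] K) (hβ : ∀ x y, β (F x) (F y) = Q * β x y)
    (hnd : ∀ x, (∀ y, β x y = 0) → x = 0) (B : Submodule K V) (v : V) (hv : F v = lam • v)
    (h1 : ∀ b ∈ B, β b v = 0) (h2 : ∀ b ∈ B, β v b = 0) (h3 : β v v ≠ 0)
    (hE : ∀ x ∈ Module.End.maxGenEigenspace F lam, ∃ b ∈ B, ∃ c : K, x = b + c • v) :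
    ∃ (P : K[X]) (n : ℕ) (b b' : Fin n → V), (∀ i, b i ∈ B) ∧ (∀ i, b' i ∈ B) ∧
      ∀ x, aeval F P x = ∑ i, β (b' i) x • b i + (β v x / β v v) • v := by
  obtain ⟨P, U, N, hP1, hP2, hP3, hP4⟩ := exists_proj F lam
  set E := Module.End.maxGenEigenspace F lam with hEd
  have hvE : v ∈ E := by
    rw [hEd, Module.End.mem_maxGenEigenspace]
    exact ⟨1, by simp [hv]⟩
  have horth : ∀ e ∈ E, ∀ x, β e x = β e (aeval F P x) := by
    intro e he x
    have h4 := orth F lam Q hlam hQ β hβ N e (hP3 e he) (aeval F U x)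
    rw [← hP4, map_sub] at h4
    exact sub_eq_zero.1 h4
  set B1 := B ⊓ E with hB1
  have hdec : ∀ x ∈ E, ∃ b ∈ B1, ∃ c : K, x = b + c • v := by
    intro x hx
    obtain ⟨b, hb, c, hc⟩ := hE x hx
    refine ⟨b, ⟨hb, ?_⟩, c, hc⟩
    have : b = x - c • v := by rw [hc]; abel
    rw [this]
    exact E.sub_mem hx (E.smul_mem c hvE)
  -- the duality on B1
  let f : B1 →ₗ[K] Module.Dual K B1 := (β.domRestrict₁₂ B1 B1)
  have hf : ∀ x y : B1, f x y = β x y := fun x y => rfl
  have hinj : Function.Injective f := by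
    rw [injective_iff_map_eq_zero]
    intro x hx
    apply Subtype.ext
    apply hnd
    intro y
    rw [horth x x.2.2 y]
    obtain ⟨b, hb, c, hc⟩ := hdec _ (hP1 y)
    rw [hc, map_add, map_smul, h1 x x.2.1, smul_zero, add_zero]
    exact LinearMap.congr_fun hx ⟨b, hb⟩
  have hsurj : Function.Surjective f :=
    (LinearMap.injective_iff_surjective_of_finrank_eq_finrank
      (Subspace.dual_finrank_eq (K := K) (V := B1)).symm).1 hinj
  let bb := Module.finBasis K B1
  choose g hg using fun i => hsurj (bb.coord i)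
  refine ⟨P, _, fun i => (bb i : V), fun i => (g i : V), fun i => (bb i).2.1,
    fun i => (g i).2.1, ?_⟩
  intro x
  obtain ⟨b, hb, c, hc⟩ := hdec _ (hP1 x)
  have hcv : c = β v x / β v v := by
    rw [horth v hvE x, hc, map_add, map_smul, h2 b hb.1, zero_add, smul_eq_mul,
      mul_div_assoc, div_self h3, mul_one]
  have hbs : b = ∑ i, β (g i) x • (bb i : V) := by
    have h5 : ∀ i, β (g i) x = bb.coord i ⟨b, hb⟩ := by
      intro i
      rw [horth _ (g i).2.2 x, hc, map_add, map_smul, h1 _ (g i).2.1, smul_zero, add_zero,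
        ← hg i]
      rfl
    have h6 := bb.sum_repr ⟨b, hb⟩
    have h7 := congrArg Subtype.val h6
    rw [Submodule.coe_sum] at h7
    refine h7.symm.trans ?_
    refine Finset.sum_congr rfl fun i _ => ?_
    rw [h5]
    rfl
  rw [hc, hbs.symm, hcv.symm]

end LA

open Pool.Agent.H914 Pool.Agent.W534 Pool.Agent.W521.Frob VarClass Obj WeilCohomology
  Pool.Agent.H281R3.HT Pool.Agent.W458.MF Pool.Agent.W397.MF Pool.Agent.W536.RR

variable {k : Type u} [Field k] {𝒱 : VarClass k} {ops : CycleOps 𝒱}
  {W : WeilCohomology.{u, v} ops} {X Y : 𝒱.Obj}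

theorem xpair : Pool.Agent.W458.MF.St_XPAIR.{u, v} := by
  intro k _ 𝒱 ops W X φ Q ρ v B hQ htr hρ hv hB hBv hcomm hvv hE
  have hQ0 : (Q : W.K) ≠ 0 := by exact_mod_cast hQ.ne'
  let β : W.H X →ₗ[W.K] W.H X →ₗ[W.K] W.K :=
    LinearMap.mk₂ W.K (fun y x => W.tr X (y * x))
      (fun a b c => by rw [add_mul, map_add]) (fun a b c => by rw [smul_mul_assoc, map_smul])
      (fun a b c => by rw [mul_add, map_add]) (fun a b c => by rw [mul_smul_comm, map_smul])
  obtain ⟨P, n, b, b', hb, hb', hP⟩ := la (W.map φ).toLinearMap ρ (Q : W.K) hρ hQ0 β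
    (fun x y => by
      change W.tr X (W.map φ x * W.map φ y) = _ * W.tr X (x * y)
      rw [← map_mul, htr]) (fun x hx => W.nondeg x hx) B v hv
    (fun b hb => hBv b hb) (fun b hb => by
      change W.tr X (v * b) = 0
      rw [← hcomm b hb]; exact hBv b hb) hvv hE
  have hPm : aeval (W.map φ).toLinearMap P ∈ KOp W X X 0 := kop_aeval (kop_map _) P
  obtain ⟨γ, hγ, hγP⟩ := mem_KOp_iff.1 hPm
  set t : W.K := W.tr X (v * v) with ht
  -- the class of the operator
  set ε : W.H (X.prod X) := ∑ i, ext W (b i) (b' i) + t⁻¹ • ext W v v with hε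
  have h1 : W.corr (W.map (swap X X) ε) = W.corr γ := by
    rw [hγP]
    apply LinearMap.ext
    intro x
    let cL : W.H (X.prod X) →ₗ[W.K] (W.H X →ₗ[W.K] W.H X) :=
      ⟨⟨fun c => W.corr c, fun c d => W.corr_add c d⟩, fun q c => W.corr_smul q c⟩
    have e1 : W.corr (W.map (swap X X) ε) = cL (W.map (swap X X) ε) := rfl
    have e2 : ∀ a b : W.H X, cL (W.map (swap X X) (ext W a b)) =
        (W.tr X ∘ₗ LinearMap.mulLeft W.K b).smulRight a := fun a b => corr_swap_ext a b
    rw [hP, e1, hε, map_add, map_sum, map_smul, map_add, map_sum, map_smul]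
    simp only [e2, LinearMap.add_apply, LinearMap.smul_apply, LinearMap.coe_sum,
      Finset.sum_apply, LinearMap.smulRight_apply, LinearMap.comp_apply,
      LinearMap.mulLeft_apply]
    congr 1
    rw [smul_smul, div_eq_inv_mul]
    rfl
  have h2 : W.map (swap X X) ε = γ := by
    rw [← sub_eq_zero]
    apply corr_inj
    apply LinearMap.ext
    intro x
    have := LinearMap.congr_fun h1 x
    rw [corr_apply, sub_mul, map_sub, ← corr_apply, ← corr_apply, this, sub_self,
      LinearMap.zero_apply]
  have h3 : ε ∈ algSpan W (X.prod X) := by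
    rw [← map_swap_swap ε, h2]
    exact map_swap_algSpan (spanCycles_le_algSpan _ hγ)
  have h4 : ∑ i, ext W (b i) (b' i) ∈ algSpan W (X.prod X) :=
    Submodule.sum_mem _ fun i _ => algSpan_mul (algSpan_map _ (hB (hb i)))
      (algSpan_map _ (hB (hb' i)))
  have h5 : ext W v v = t • (ε - ∑ i, ext W (b i) (b' i)) := by
    rw [hε, add_sub_cancel_left, smul_smul, mul_inv_cancel₀ hvv, one_smul]
  rw [h5]
  exact Submodule.smul_mem _ _ (Submodule.sub_mem _ h3 h4)

end Pool.Agent.W588.MF
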